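import Pool.Agent.Helper83.HL.St

/-!
# Project HL (MP_8be7de_nt), module A
-/

set_option autoImplicit false

namespace Pool.Agent.Helper81.HL

open Pool.Agent.Helper83.HL
open Classical

theorem mA : StA := by
  intro n m hn hm
  constructor
  · intro h
    obtain ⟨q, hq, hqd⟩ := Nat.exists_prime_and_dvd h
    haveI : Fact q.Prime := ⟨hq⟩
    have hk : ∀ k ∈ Finset.Icc 2 m, q ∣ k ^ n - 1 := fun k hk => hqd.trans (Finset.gcd_dvd hk)
    have hmq : m < q := by
      by_contra hle
      have h1 := hk q (Finset.mem_Icc.2 ⟨hq.two_le, not_lt.1 hle⟩)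
      have h2 : q ∣ q ^ n := dvd_pow_self q (by omega)
      have h3 : 1 ≤ q ^ n := Nat.one_le_pow _ _ hq.pos
      have h4 : q ∣ q ^ n - (q ^ n - 1) := Nat.dvd_sub h2 h1
      have h5 : q ^ n - (q ^ n - 1) = 1 := by omega
      rw [h5] at h4
      exact hq.one_lt.ne' (Nat.dvd_one.1 h4)
    refine ⟨q, hq, hmq, ?_⟩
    have hle : Hs q m ≤ (powMonoidHom n : (ZMod q)ˣ →* (ZMod q)ˣ).ker := by
      unfold Hs
      rw [Subgroup.closure_le]
      rintro u ⟨k, hk2, hkm, hu⟩
      have h1 := hk k (Finset.mem_Icc.2 ⟨hk2, hkm⟩)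
      have h3 : 1 ≤ k ^ n := Nat.one_le_pow _ _ (by omega)
      have h4 : ((k ^ n - 1 : ℕ) : ZMod q) = 0 := (ZMod.natCast_eq_zero_iff _ _).2 h1
      rw [Nat.cast_sub h3] at h4
      push_cast at h4
      rw [SetLike.mem_coe, MonoidHom.mem_ker, powMonoidHom_apply]
      apply Units.ext
      rw [Units.val_pow_eq_pow_val, hu, Units.val_one]
      exact sub_eq_zero.1 h4
    unfold Dq
    rw [← IsCyclic.exponent_eq_card]
    apply Monoid.exponent_dvd_of_forall_pow_eq_one
    rintro ⟨g, hg⟩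
    have h1 := hle hg
    rw [MonoidHom.mem_ker, powMonoidHom_apply] at h1
    exact Subtype.ext (by simpa using h1)
  · rintro ⟨q, hq, hmq, hd⟩ h1
    haveI : Fact q.Prime := ⟨hq⟩
    have h2 : q ∣ (Finset.Icc 2 m).gcd (fun k => k ^ n - 1) := by
      apply Finset.dvd_gcd
      intro k hk
      obtain ⟨hk2, hkm⟩ := Finset.mem_Icc.1 hk
      have hk0 : (k : ZMod q) ≠ 0 := by
        intro h0
        rw [ZMod.natCast_eq_zero_iff] at h0
        exact absurd (Nat.le_of_dvd (by omega) h0) (by omega)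
      have hu : Units.mk0 (k : ZMod q) hk0 ∈ Hs q m := by
        apply Subgroup.subset_closure
        exact ⟨k, hk2, hkm, by simp⟩
      have h3 : (⟨Units.mk0 (k : ZMod q) hk0, hu⟩ : Hs q m) ^ Nat.card (Hs q m) = 1 :=
        pow_card_eq_one'
      have h4 : (Units.mk0 (k : ZMod q) hk0) ^ n = 1 := by
        obtain ⟨c, hc⟩ := hd
        unfold Dq at hc
        have h5 := congrArg Subtype.val h3
        simp only [SubmonoidClass.mk_pow, Subgroup.coe_one] at h5
        rw [hc, pow_mul, h5, one_pow]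
      have h5 : (k : ZMod q) ^ n = 1 := by
        have := congrArg Units.val h4
        simpa using this
      rw [← ZMod.natCast_eq_zero_iff, Nat.cast_sub (Nat.one_le_pow _ _ (by omega))]
      push_cast
      rw [h5, sub_self]
    rw [h1] at h2
    exact hq.one_lt.ne' (Nat.dvd_one.1 h2)

end Pool.Agent.Helper81.HL
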